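import Pool.Agent.Q276.HL.Stm2

/-! Project HL, job FINA: union of three finite sets. -/

set_option autoImplicit false

namespace Pool.Agent.Q26.HL

open Pool.Agent.Q276.HL

theorem box_finite (R : ℝ) :
    {X : ℤ × ℤ | |(X.1 : ℝ)| ≤ R ^ 2 ∧ |(X.2 : ℝ)| ≤ R ^ 3}.Finite := by
  have h1 : (Set.Icc (-⌊R ^ 2⌋) ⌊R ^ 2⌋ ×ˢ Set.Icc (-⌊R ^ 3⌋) ⌊R ^ 3⌋ : Set (ℤ × ℤ)).Finite :=
    (Set.finite_Icc _ _).prod (Set.finite_Icc _ _)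
  refine h1.subset ?_
  rintro ⟨a, b⟩ ⟨ha, hb⟩
  simp only at ha hb
  rw [abs_le] at ha hb
  have key : ∀ (c : ℤ) (t : ℝ), -t ≤ (c : ℝ) → (c : ℝ) ≤ t → c ∈ Set.Icc (-⌊t⌋) ⌊t⌋ := by
    intro c t h1 h2
    refine ⟨?_, Int.le_floor.2 h2⟩
    have : -c ≤ ⌊t⌋ := Int.le_floor.2 (by push_cast; linarith)
    omega
  exact ⟨key a _ ha.1 ha.2, key b _ hb.1 hb.2⟩

theorem fina (h1 : StmtLOW1) (h2 : StmtFLW) (h3 : StmtFIN4) : StmtFINA := by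
  obtain ⟨C1, hC1, h1⟩ := h1
  obtain ⟨M4, h3⟩ := h3
  obtain ⟨C2, hC2, h2⟩ := h2 (max 1 M4) (le_max_left _ _)
  refine ⟨C1 + C2 + M4, fun R hR => ?_⟩
  have g1 := h1 R hR
  have g2 := h2 R hR
  have g3 := h3 R hR
  set S1 := {X : ℤ × ℤ | |(X.1 : ℝ)| ≤ R ^ 2 ∧ |(X.2 : ℝ)| ≤ R ^ 3 ∧
    ∃ x y : ℤ, y ^ 2 = x ^ 3 + X.1 * x + X.2 ∧ (x : ℝ) ≤ R ^ ((24 : ℝ) / 5)} with hS1
  set S2 := {X : ℤ × ℤ | |(X.1 : ℝ)| ≤ R ^ 2 ∧ |(X.2 : ℝ)| ≤ R ^ 3 ∧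
    4 * X.1 ^ 3 + 27 * X.2 ^ 2 ≠ 0 ∧
    ∃ x y : ℤ, y ^ 2 = x ^ 3 + X.1 * x + X.2 ∧ R ^ ((24 : ℝ) / 5) ≤ (x : ℝ) ∧
      (x : ℝ) ≤ max 1 M4 * R ^ 6} with hS2
  set S3 := {X : ℤ × ℤ | |(X.1 : ℝ)| ≤ R ^ 2 ∧ |(X.2 : ℝ)| ≤ R ^ 3 ∧
    4 * X.1 ^ 3 + 27 * X.2 ^ 2 ≠ 0 ∧
    ∃ x y : ℤ, y ^ 2 = x ^ 3 + X.1 * x + X.2 ∧ M4 * R ^ 6 ≤ (x : ℝ) ∧
      (x : ℝ) ≤ Real.exp (R ^ ((1 : ℝ) / 5000))} with hS3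
  have f1 : S1.Finite := (box_finite R).subset fun X h => ⟨h.1, h.2.1⟩
  have f2 : S2.Finite := (box_finite R).subset fun X h => ⟨h.1, h.2.1⟩
  have f3 : S3.Finite := (box_finite R).subset fun X h => ⟨h.1, h.2.1⟩
  have hR0 : (0 : ℝ) ≤ R ^ 6 := by positivity
  have hsub : {X : ℤ × ℤ | |(X.1 : ℝ)| ≤ R ^ 2 ∧ |(X.2 : ℝ)| ≤ R ^ 3 ∧
      4 * X.1 ^ 3 + 27 * X.2 ^ 2 ≠ 0 ∧
      ∃ x y : ℤ, y ^ 2 = x ^ 3 + X.1 * x + X.2 ∧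
        (x : ℝ) ≤ Real.exp (R ^ ((1 : ℝ) / 5000))} ⊆ S1 ∪ S2 ∪ S3 := by
    rintro X ⟨hA, hB, hD, x, y, hxy, hx⟩
    by_cases c1 : (x : ℝ) ≤ R ^ ((24 : ℝ) / 5)
    · exact Or.inl (Or.inl ⟨hA, hB, x, y, hxy, c1⟩)
    · by_cases c2 : (x : ℝ) ≤ max 1 M4 * R ^ 6
      · exact Or.inl (Or.inr ⟨hA, hB, hD, x, y, hxy, (not_le.1 c1).le, c2⟩)
      · refine Or.inr ⟨hA, hB, hD, x, y, hxy, ?_, hx⟩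
        exact (mul_le_mul_of_nonneg_right (le_max_right 1 M4) hR0).trans (not_le.1 c2).le
  have hcard : ({X : ℤ × ℤ | |(X.1 : ℝ)| ≤ R ^ 2 ∧ |(X.2 : ℝ)| ≤ R ^ 3 ∧
      4 * X.1 ^ 3 + 27 * X.2 ^ 2 ≠ 0 ∧
      ∃ x y : ℤ, y ^ 2 = x ^ 3 + X.1 * x + X.2 ∧
        (x : ℝ) ≤ Real.exp (R ^ ((1 : ℝ) / 5000))}.ncard : ℝ) ≤
      (S1.ncard : ℝ) + S2.ncard + S3.ncard := by
    have a1 := Set.ncard_le_ncard hsub ((f1.union f2).union f3)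
    have a2 := Set.ncard_union_le (S1 ∪ S2) S3
    have a3 := Set.ncard_union_le S1 S2
    have a4 : (S1 ∪ S2 ∪ S3).ncard ≤ S1.ncard + S2.ncard + S3.ncard := by omega
    have a5 := (Nat.cast_le (α := ℝ)).2 (a1.trans a4)
    rw [Nat.cast_add, Nat.cast_add] at a5
    exact a5
  have p1 : R ^ ((49 : ℝ) / 10) ≤ R ^ (5 - (1 : ℝ) / 50) :=
    Real.rpow_le_rpow_of_exponent_le hR (by norm_num)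
  have p2 : R ^ ((9 : ℝ) / 2) ≤ R ^ (5 - (1 : ℝ) / 50) :=
    Real.rpow_le_rpow_of_exponent_le hR (by norm_num)
  have q1 : C1 * R ^ ((49 : ℝ) / 10) ≤ C1 * R ^ (5 - (1 : ℝ) / 50) :=
    mul_le_mul_of_nonneg_left p1 (by linarith)
  have q2 : C2 * R ^ ((9 : ℝ) / 2) ≤ C2 * R ^ (5 - (1 : ℝ) / 50) :=
    mul_le_mul_of_nonneg_left p2 (by linarith)
  refine hcard.trans ?_
  rw [add_mul, add_mul]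
  linarith

end Pool.Agent.Q26.HL
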